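import Mathlib

/-!
# A benzenoid system with a hexagon of ring bond order 3

We exhibit a benzenoid system with 25 hexagons (90 vertices, 1458 Kekulé structures, sixfold
rotational symmetry) whose central hexagon has ring bond order exactly `3`: every perfect matching
contains three edges of the central hexagon.
-/

set_option maxRecDepth 100000

namespace Pool.Agent.Results.MP_64a46a_co.IsolatedHexagon

open SimpleGraph

/-- The cells (hexagons) of the regular hexagonal lattice, indexed by the points `i·u + j·v` of the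
triangular lattice (the centres of the cells), where `u`, `v` are unit vectors at angle 60°. -/
abbrev Cell := ℤ × ℤ

/-- The vertices of the regular hexagonal lattice: `(i, j, false)` is the common corner of the three
cells `(i,j)`, `(i+1,j)`, `(i,j+1)`, and `(i, j, true)` is the common corner of the three cells
`(i+1,j)`, `(i,j+1)`, `(i+1,j+1)`. -/
abbrev Vtx := ℤ × ℤ × Bool

/-- `(i,j,false)` is joined to `(i,j,true)`, `(i-1,j,true)` and `(i,j-1,true)`. -/
def latticeRel (a b : Vtx) : Prop :=
  a.2.2 = false ∧ b.2.2 = true ∧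
    ((b.1 = a.1 ∧ b.2.1 = a.2.1) ∨ (b.1 = a.1 - 1 ∧ b.2.1 = a.2.1) ∨
      (b.1 = a.1 ∧ b.2.1 = a.2.1 - 1))

instance (a b : Vtx) : Decidable (latticeRel a b) := by
  unfold latticeRel; infer_instance

/-- The regular hexagonal lattice, as a graph. -/
def hexLattice : SimpleGraph Vtx where
  Adj a b := latticeRel a b ∨ latticeRel b a
  symm := ⟨fun _ _ h => Or.symm h⟩
  loopless := ⟨fun a h => by
    rcases h with h | h <;> · have h1 := h.1; have h2 := h.2.1; rw [h1] at h2; simp at h2⟩

instance : DecidableRel hexLattice.Adj := fun a b => by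
  unfold hexLattice; infer_instance

/-- The six corners of a cell, in cyclic order. -/
def corners (c : Cell) : Finset Vtx :=
  {(c.1, c.2, false), (c.1 - 1, c.2, true), (c.1 - 1, c.2, false),
   (c.1 - 1, c.2 - 1, true), (c.1, c.2 - 1, false), (c.1, c.2 - 1, true)}

/-- The six edges of a cell. -/
def cellEdges (c : Cell) : Finset (Sym2 Vtx) :=
  {s((c.1, c.2, false), (c.1 - 1, c.2, true)),
   s((c.1 - 1, c.2, true), (c.1 - 1, c.2, false)),
   s((c.1 - 1, c.2, false), (c.1 - 1, c.2 - 1, true)),
   s((c.1 - 1, c.2 - 1, true), (c.1, c.2 - 1, false)),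
   s((c.1, c.2 - 1, false), (c.1, c.2 - 1, true)),
   s((c.1, c.2 - 1, true), (c.1, c.2, false))}

/-- A benzenoid system, given by a cycle `C` of the hexagonal lattice; `cells` is the finite set of
the hexagons inside `C`, characterised by: a lattice edge lies on `C` if and only if exactly one of
the hexagons containing it is inside `C`. -/
structure Benzenoid where
  /-- the hexagons inside `C` -/
  cells : Finset Cell
  /-- the starting vertex of `C` -/
  base : Vtx
  /-- the boundary cycle -/
  C : hexLattice.Walk base base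
  isCycle : C.IsCycle
  inside : ∀ e ∈ hexLattice.edgeSet, e ∈ C.edges ↔ (cells.filter (fun c => e ∈ cellEdges c)).card = 1

/-- The vertices on or inside `C`: the corners of the hexagons inside `C`. -/
def Benzenoid.verts (B : Benzenoid) : Finset Vtx := B.cells.biUnion corners

/-- The edges on or inside `C`: the edges of the hexagons inside `C`. -/
def Benzenoid.edges (B : Benzenoid) : Finset (Sym2 Vtx) := B.cells.biUnion cellEdges

/-- The Kekulé structures (perfect matchings) of `B`, as sets of edges. -/
def Benzenoid.kekule (B : Benzenoid) : Finset (Finset (Sym2 Vtx)) :=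
  B.edges.powerset.filter (fun M => ∀ v ∈ B.verts, (M.filter (fun e => v ∈ e)).card = 1)

/-- The number of Kekulé structures. -/
def Benzenoid.K (B : Benzenoid) : ℕ := B.kekule.card

/-- The Pauling bond order of an edge. -/
def Benzenoid.pauling (B : Benzenoid) (e : Sym2 Vtx) : ℚ :=
  ((B.kekule.filter (fun M => e ∈ M)).card : ℚ) / B.K

/-- The ring bond order of a hexagon. -/
def Benzenoid.RBO (B : Benzenoid) (h : Cell) : ℚ := ∑ e ∈ cellEdges h, B.pauling e

/-! ### The example -/

def cellList : List Cell :=
  [(-3, 0), (-3, 1), (-3, 3), (-2, 0), (-2, 2), (-2, 3), (-1, -2), (-1, 0), (-1, 1), (0, -3), (0, -2), (0, -1), (0, 0), (0, 1), (0, 2), (0, 3), (1, -1), (1, 0), (1, 2), (2, -3), (2, -2), (2, 0), (3, -3), (3, -1), (3, 0)]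

def boundaryWalk : hexLattice.Walk ((-4, -1, true) : Vtx) (-4, -1, true) :=
  Walk.cons (show hexLattice.Adj (-4, -1, true) (-4, 0, false) by decide +kernel) <|
  Walk.cons (show hexLattice.Adj (-4, 0, false) (-4, 0, true) by decide +kernel) <|
  Walk.cons (show hexLattice.Adj (-4, 0, true) (-4, 1, false) by decide +kernel) <|
  Walk.cons (show hexLattice.Adj (-4, 1, false) (-4, 1, true) by decide +kernel) <|
  Walk.cons (show hexLattice.Adj (-4, 1, true) (-3, 1, false) by decide +kernel) <|
  Walk.cons (show hexLattice.Adj (-3, 1, false) (-3, 0, true) by decide +kernel) <|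
  Walk.cons (show hexLattice.Adj (-3, 0, true) (-2, 0, false) by decide +kernel) <|
  Walk.cons (show hexLattice.Adj (-2, 0, false) (-2, 0, true) by decide +kernel) <|
  Walk.cons (show hexLattice.Adj (-2, 0, true) (-2, 1, false) by decide +kernel) <|
  Walk.cons (show hexLattice.Adj (-2, 1, false) (-3, 1, true) by decide +kernel) <|
  Walk.cons (show hexLattice.Adj (-3, 1, true) (-3, 2, false) by decide +kernel) <|
  Walk.cons (show hexLattice.Adj (-3, 2, false) (-4, 2, true) by decide +kernel) <|
  Walk.cons (show hexLattice.Adj (-4, 2, true) (-4, 3, false) by decide +kernel) <|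
  Walk.cons (show hexLattice.Adj (-4, 3, false) (-4, 3, true) by decide +kernel) <|
  Walk.cons (show hexLattice.Adj (-4, 3, true) (-3, 3, false) by decide +kernel) <|
  Walk.cons (show hexLattice.Adj (-3, 3, false) (-3, 3, true) by decide +kernel) <|
  Walk.cons (show hexLattice.Adj (-3, 3, true) (-2, 3, false) by decide +kernel) <|
  Walk.cons (show hexLattice.Adj (-2, 3, false) (-2, 2, true) by decide +kernel) <|
  Walk.cons (show hexLattice.Adj (-2, 2, true) (-2, 2, false) by decide +kernel) <|
  Walk.cons (show hexLattice.Adj (-2, 2, false) (-2, 1, true) by decide +kernel) <|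
  Walk.cons (show hexLattice.Adj (-2, 1, true) (-1, 1, false) by decide +kernel) <|
  Walk.cons (show hexLattice.Adj (-1, 1, false) (-1, 1, true) by decide +kernel) <|
  Walk.cons (show hexLattice.Adj (-1, 1, true) (-1, 2, false) by decide +kernel) <|
  Walk.cons (show hexLattice.Adj (-1, 2, false) (-1, 2, true) by decide +kernel) <|
  Walk.cons (show hexLattice.Adj (-1, 2, true) (-1, 3, false) by decide +kernel) <|
  Walk.cons (show hexLattice.Adj (-1, 3, false) (-1, 3, true) by decide +kernel) <|
  Walk.cons (show hexLattice.Adj (-1, 3, true) (0, 3, false) by decide +kernel) <|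
  Walk.cons (show hexLattice.Adj (0, 3, false) (0, 2, true) by decide +kernel) <|
  Walk.cons (show hexLattice.Adj (0, 2, true) (1, 2, false) by decide +kernel) <|
  Walk.cons (show hexLattice.Adj (1, 2, false) (1, 1, true) by decide +kernel) <|
  Walk.cons (show hexLattice.Adj (1, 1, true) (1, 1, false) by decide +kernel) <|
  Walk.cons (show hexLattice.Adj (1, 1, false) (0, 1, true) by decide +kernel) <|
  Walk.cons (show hexLattice.Adj (0, 1, true) (0, 1, false) by decide +kernel) <|
  Walk.cons (show hexLattice.Adj (0, 1, false) (0, 0, true) by decide +kernel) <|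
  Walk.cons (show hexLattice.Adj (0, 0, true) (1, 0, false) by decide +kernel) <|
  Walk.cons (show hexLattice.Adj (1, 0, false) (1, 0, true) by decide +kernel) <|
  Walk.cons (show hexLattice.Adj (1, 0, true) (2, 0, false) by decide +kernel) <|
  Walk.cons (show hexLattice.Adj (2, 0, false) (2, 0, true) by decide +kernel) <|
  Walk.cons (show hexLattice.Adj (2, 0, true) (3, 0, false) by decide +kernel) <|
  Walk.cons (show hexLattice.Adj (3, 0, false) (3, -1, true) by decide +kernel) <|
  Walk.cons (show hexLattice.Adj (3, -1, true) (3, -1, false) by decide +kernel) <|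
  Walk.cons (show hexLattice.Adj (3, -1, false) (3, -2, true) by decide +kernel) <|
  Walk.cons (show hexLattice.Adj (3, -2, true) (3, -2, false) by decide +kernel) <|
  Walk.cons (show hexLattice.Adj (3, -2, false) (2, -2, true) by decide +kernel) <|
  Walk.cons (show hexLattice.Adj (2, -2, true) (2, -1, false) by decide +kernel) <|
  Walk.cons (show hexLattice.Adj (2, -1, false) (1, -1, true) by decide +kernel) <|
  Walk.cons (show hexLattice.Adj (1, -1, true) (1, -1, false) by decide +kernel) <|
  Walk.cons (show hexLattice.Adj (1, -1, false) (1, -2, true) by decide +kernel) <|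
  Walk.cons (show hexLattice.Adj (1, -2, true) (2, -2, false) by decide +kernel) <|
  Walk.cons (show hexLattice.Adj (2, -2, false) (2, -3, true) by decide +kernel) <|
  Walk.cons (show hexLattice.Adj (2, -3, true) (3, -3, false) by decide +kernel) <|
  Walk.cons (show hexLattice.Adj (3, -3, false) (3, -4, true) by decide +kernel) <|
  Walk.cons (show hexLattice.Adj (3, -4, true) (3, -4, false) by decide +kernel) <|
  Walk.cons (show hexLattice.Adj (3, -4, false) (2, -4, true) by decide +kernel) <|
  Walk.cons (show hexLattice.Adj (2, -4, true) (2, -4, false) by decide +kernel) <|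
  Walk.cons (show hexLattice.Adj (2, -4, false) (1, -4, true) by decide +kernel) <|
  Walk.cons (show hexLattice.Adj (1, -4, true) (1, -3, false) by decide +kernel) <|
  Walk.cons (show hexLattice.Adj (1, -3, false) (1, -3, true) by decide +kernel) <|
  Walk.cons (show hexLattice.Adj (1, -3, true) (1, -2, false) by decide +kernel) <|
  Walk.cons (show hexLattice.Adj (1, -2, false) (0, -2, true) by decide +kernel) <|
  Walk.cons (show hexLattice.Adj (0, -2, true) (0, -2, false) by decide +kernel) <|
  Walk.cons (show hexLattice.Adj (0, -2, false) (0, -3, true) by decide +kernel) <|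
  Walk.cons (show hexLattice.Adj (0, -3, true) (0, -3, false) by decide +kernel) <|
  Walk.cons (show hexLattice.Adj (0, -3, false) (0, -4, true) by decide +kernel) <|
  Walk.cons (show hexLattice.Adj (0, -4, true) (0, -4, false) by decide +kernel) <|
  Walk.cons (show hexLattice.Adj (0, -4, false) (-1, -4, true) by decide +kernel) <|
  Walk.cons (show hexLattice.Adj (-1, -4, true) (-1, -3, false) by decide +kernel) <|
  Walk.cons (show hexLattice.Adj (-1, -3, false) (-2, -3, true) by decide +kernel) <|
  Walk.cons (show hexLattice.Adj (-2, -3, true) (-2, -2, false) by decide +kernel) <|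
  Walk.cons (show hexLattice.Adj (-2, -2, false) (-2, -2, true) by decide +kernel) <|
  Walk.cons (show hexLattice.Adj (-2, -2, true) (-1, -2, false) by decide +kernel) <|
  Walk.cons (show hexLattice.Adj (-1, -2, false) (-1, -2, true) by decide +kernel) <|
  Walk.cons (show hexLattice.Adj (-1, -2, true) (-1, -1, false) by decide +kernel) <|
  Walk.cons (show hexLattice.Adj (-1, -1, false) (-2, -1, true) by decide +kernel) <|
  Walk.cons (show hexLattice.Adj (-2, -1, true) (-2, -1, false) by decide +kernel) <|
  Walk.cons (show hexLattice.Adj (-2, -1, false) (-3, -1, true) by decide +kernel) <|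
  Walk.cons (show hexLattice.Adj (-3, -1, true) (-3, -1, false) by decide +kernel) <|
  Walk.cons (show hexLattice.Adj (-3, -1, false) (-4, -1, true) by decide +kernel) <|
  Walk.nil

def matchList : List (Sym2 Vtx) :=
  [s((-4, 0, false), (-4, -1, true)),
   s((-4, 1, false), (-4, 0, true)),
   s((-4, 3, false), (-4, 3, true)),
   s((-3, -1, false), (-3, -1, true)),
   s((-3, 0, false), (-3, 0, true)),
   s((-3, 1, false), (-4, 1, true)),
   s((-3, 2, false), (-4, 2, true)),
   s((-3, 3, false), (-3, 2, true)),
   s((-2, -2, false), (-2, -3, true)),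
   s((-2, -1, false), (-2, -1, true)),
   s((-2, 0, false), (-2, 0, true)),
   s((-2, 1, false), (-3, 1, true)),
   s((-2, 2, false), (-2, 2, true)),
   s((-2, 3, false), (-3, 3, true)),
   s((-1, -3, false), (-1, -4, true)),
   s((-1, -2, false), (-2, -2, true)),
   s((-1, -1, false), (-1, -2, true)),
   s((-1, 0, false), (-1, 0, true)),
   s((-1, 1, false), (-2, 1, true)),
   s((-1, 2, false), (-1, 1, true)),
   s((-1, 3, false), (-1, 2, true)),
   s((0, -4, false), (0, -4, true)),
   s((0, -3, false), (-1, -3, true)),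
   s((0, -2, false), (0, -3, true)),
   s((0, -1, false), (-1, -1, true)),
   s((0, 0, false), (0, -1, true)),
   s((0, 1, false), (0, 0, true)),
   s((0, 2, false), (0, 1, true)),
   s((0, 3, false), (-1, 3, true)),
   s((1, -3, false), (1, -4, true)),
   s((1, -2, false), (0, -2, true)),
   s((1, -1, false), (1, -1, true)),
   s((1, 0, false), (1, 0, true)),
   s((1, 1, false), (1, 1, true)),
   s((1, 2, false), (0, 2, true)),
   s((2, -4, false), (2, -4, true)),
   s((2, -3, false), (1, -3, true)),
   s((2, -2, false), (1, -2, true)),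
   s((2, -1, false), (2, -2, true)),
   s((2, 0, false), (2, -1, true)),
   s((3, -4, false), (3, -4, true)),
   s((3, -3, false), (2, -3, true)),
   s((3, -2, false), (3, -2, true)),
   s((3, -1, false), (3, -1, true)),
   s((3, 0, false), (2, 0, true))]

def potList : List (Vtx × ℤ) :=
  [((-4, 2, true), -2),
   ((-4, 3, true), -2),
   ((-4, 3, false), 2),
   ((-3, 1, true), -2),
   ((-3, 2, true), -2),
   ((-3, 2, false), 2),
   ((-3, 3, true), -2),
   ((-3, 3, false), 2),
   ((-2, -3, true), -2),
   ((-2, -2, true), -2),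
   ((-2, -2, false), 2),
   ((-2, 1, true), -2),
   ((-2, 1, false), 2),
   ((-2, 2, true), -2),
   ((-2, 2, false), 2),
   ((-2, 3, false), 2),
   ((-1, -4, true), -2),
   ((-1, -3, true), -2),
   ((-1, -3, false), 2),
   ((-1, -2, true), -2),
   ((-1, -2, false), 2),
   ((-1, -1, true), -1),
   ((-1, -1, false), 2),
   ((-1, 0, true), -1),
   ((-1, 0, false), 1),
   ((-1, 1, false), 2),
   ((0, -4, true), -2),
   ((0, -4, false), 2),
   ((0, -3, true), -2),
   ((0, -3, false), 2),
   ((0, -2, false), 2),
   ((0, -1, true), -1),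
   ((0, -1, false), 1),
   ((0, 0, false), 1),
   ((1, -1, true), -2),
   ((1, -1, false), 2),
   ((1, 0, true), -2),
   ((1, 0, false), 2),
   ((2, -2, true), -2),
   ((2, -1, true), -2),
   ((2, -1, false), 2),
   ((2, 0, true), -2),
   ((2, 0, false), 2),
   ((3, -2, true), -2),
   ((3, -2, false), 2),
   ((3, -1, true), -2),
   ((3, -1, false), 2),
   ((3, 0, false), 2)]

def exCells : Finset Cell := cellList.toFinset

def M₀ : Finset (Sym2 Vtx) := matchList.toFinset

/-- dual potential -/
def pot (v : Vtx) : ℤ := (potList.lookup v).getD 0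

theorem boundary_isCycle : boundaryWalk.IsCycle := by
  rw [Walk.isCycle_def]
  refine ⟨?_, ?_, ?_⟩
  · rw [Walk.isTrail_def]
    decide +kernel
  · intro h
    have := congrArg Walk.length h
    revert this
    decide +kernel
  · decide +kernel

theorem inside_aux1 : ∀ e ∈ boundaryWalk.edges,
    (exCells.filter (fun c => e ∈ cellEdges c)).card = 1 := by
  decide +kernel

theorem inside_aux2 : ∀ c ∈ exCells, ∀ e ∈ cellEdges c,
    (exCells.filter (fun c => e ∈ cellEdges c)).card = 1 → e ∈ boundaryWalk.edges := by
  decide +kernel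

/-- The example. -/
def ex : Benzenoid where
  cells := exCells
  base := _
  C := boundaryWalk
  isCycle := boundary_isCycle
  inside := by
    intro e _
    constructor
    · exact inside_aux1 e
    · intro h
      have hne : (exCells.filter (fun c => e ∈ cellEdges c)).Nonempty := by
        rw [← Finset.card_pos, h]; exact one_pos
      obtain ⟨c, hc⟩ := hne
      rw [Finset.mem_filter] at hc
      exact inside_aux2 c hc.1 e hc.2 h

/-! ### The general argument -/

/-- sum of a potential over the two ends of an edge -/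
def esum (p : Vtx → ℤ) (e : Sym2 Vtx) : ℤ :=
  Sym2.lift ⟨fun a b => p a + p b, fun _ _ => add_comm _ _⟩ e

theorem cellEdge_ends (c : Cell) (e : Sym2 Vtx) (he : e ∈ cellEdges c) :
    ∃ a b : Vtx, e = s(a, b) ∧ a ≠ b ∧ a ∈ corners c ∧ b ∈ corners c := by
  unfold cellEdges at he
  simp only [Finset.mem_insert, Finset.mem_singleton] at he
  rcases he with he | he | he | he | he | he <;>
    exact ⟨_, _, he, by simp, by simp [corners], by simp [corners]⟩

theorem sum_ends {S : Finset Vtx} {a b : Vtx} (hab : a ≠ b) (ha : a ∈ S) (hb : b ∈ S)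
    (p : Vtx → ℤ) : ∑ v ∈ S.filter (fun v => v ∈ s(a, b)), p v = p a + p b := by
  have : S.filter (fun v => v ∈ s(a, b)) = {a, b} := by
    ext v
    simp only [Finset.mem_filter, Sym2.mem_iff, Finset.mem_insert, Finset.mem_singleton]
    constructor
    · exact fun h => h.2
    · rintro (h | h)
      · subst h; exact ⟨ha, Or.inl rfl⟩
      · subst h; exact ⟨hb, Or.inr rfl⟩
  rw [this, Finset.sum_pair hab]

theorem edge_sum (B : Benzenoid) (p : Vtx → ℤ) {e : Sym2 Vtx} (he : e ∈ B.edges) :
    ∑ v ∈ B.verts.filter (fun v => v ∈ e), p v = esum p e := by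
  unfold Benzenoid.edges at he
  rw [Finset.mem_biUnion] at he
  obtain ⟨c, hc, hec⟩ := he
  obtain ⟨a, b, rfl, hab, ha, hb⟩ := cellEdge_ends c e hec
  have hav : a ∈ B.verts := by
    unfold Benzenoid.verts; rw [Finset.mem_biUnion]; exact ⟨c, hc, ha⟩
  have hbv : b ∈ B.verts := by
    unfold Benzenoid.verts; rw [Finset.mem_biUnion]; exact ⟨c, hc, hb⟩
  rw [sum_ends hab hav hbv]
  rfl

theorem mem_kekule {B : Benzenoid} {M : Finset (Sym2 Vtx)} (hM : M ∈ B.kekule) :
    M ⊆ B.edges ∧ ∀ v ∈ B.verts, (M.filter (fun e => v ∈ e)).card = 1 := by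
  unfold Benzenoid.kekule at hM
  rw [Finset.mem_filter, Finset.mem_powerset] at hM
  exact hM

/-- A potential of total sum zero that is non-negative on all edges and positive on the edges
leaving `h` shows that no Kekulé structure uses an edge leaving `h`. -/
theorem no_exit (B : Benzenoid) (h : Cell) (p : Vtx → ℤ) (hsum : ∑ v ∈ B.verts, p v = 0)
    (hnn : ∀ e ∈ B.edges, 0 ≤ esum p e)
    (hpos : ∀ e ∈ B.edges, e ∉ cellEdges h → (∃ v ∈ corners h, v ∈ e) → 0 < esum p e)
    {M : Finset (Sym2 Vtx)} (hM : M ∈ B.kekule) {e : Sym2 Vtx} (he : e ∈ M)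
    {v : Vtx} (hv : v ∈ corners h) (hve : v ∈ e) : e ∈ cellEdges h := by
  obtain ⟨hsub, hone⟩ := mem_kekule hM
  have key : ∑ e ∈ M, esum p e = 0 := by
    rw [← hsum, Finset.sum_congr rfl (fun e he => (edge_sum B p (hsub he)).symm)]
    simp_rw [Finset.sum_filter]
    rw [Finset.sum_comm]
    refine Finset.sum_congr rfl fun v hv => ?_
    rw [← Finset.sum_filter, Finset.sum_const, hone v hv, one_smul]
  by_contra hne
  have h1 : 0 < esum p e := hpos e (hsub he) hne ⟨v, hv, hve⟩
  have h2 : esum p e ≤ ∑ e ∈ M, esum p e :=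
    Finset.single_le_sum (f := esum p) (fun e he => hnn e (hsub he)) he
  omega

theorem card_corners (c : Cell) : (corners c).card = 6 := by
  obtain ⟨i, j⟩ := c
  unfold corners
  simp only
  rw [Finset.card_insert_of_notMem, Finset.card_insert_of_notMem, Finset.card_insert_of_notMem,
    Finset.card_insert_of_notMem, Finset.card_insert_of_notMem, Finset.card_singleton] <;>
  simp <;> omega

theorem two_ends (c : Cell) {e : Sym2 Vtx} (he : e ∈ cellEdges c) :
    ((corners c).filter (fun v => v ∈ e)).card = 2 := by
  obtain ⟨a, b, rfl, hab, ha, hb⟩ := cellEdge_ends c e he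
  have := sum_ends hab ha hb (fun _ => 1)
  simp only [Finset.sum_const, mul_one, nsmul_eq_mul] at this
  exact_mod_cast this

/-- every Kekulé structure contains exactly three edges of `h` -/
theorem three_edges (B : Benzenoid) (h : Cell) (hh : h ∈ B.cells) (p : Vtx → ℤ)
    (hsum : ∑ v ∈ B.verts, p v = 0) (hnn : ∀ e ∈ B.edges, 0 ≤ esum p e)
    (hpos : ∀ e ∈ B.edges, e ∉ cellEdges h → (∃ v ∈ corners h, v ∈ e) → 0 < esum p e)
    {M : Finset (Sym2 Vtx)} (hM : M ∈ B.kekule) :
    ((cellEdges h).filter (fun e => e ∈ M)).card = 3 := by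
  obtain ⟨hsub, hone⟩ := mem_kekule hM
  have hcs : ∀ v ∈ corners h, v ∈ B.verts := by
    intro v hv
    unfold Benzenoid.verts; rw [Finset.mem_biUnion]; exact ⟨h, hh, hv⟩
  have h1 : ∑ v ∈ corners h, (M.filter (fun e => v ∈ e)).card = 6 := by
    rw [Finset.sum_congr rfl (fun v hv => hone v (hcs v hv)), Finset.sum_const, card_corners]
    rfl
  have h2 : ∑ v ∈ corners h, (M.filter (fun e => v ∈ e)).card
      = ∑ v ∈ corners h, (((cellEdges h).filter (fun e => e ∈ M)).filter
          (fun e => v ∈ e)).card := by
    refine Finset.sum_congr rfl fun v hv => ?_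
    congr 1
    ext e
    simp only [Finset.mem_filter]
    constructor
    · rintro ⟨ha, hb⟩
      exact ⟨⟨no_exit B h p hsum hnn hpos hM ha hv hb, ha⟩, hb⟩
    · rintro ⟨⟨_, ha⟩, hb⟩
      exact ⟨ha, hb⟩
  have h3 : ∑ v ∈ corners h, (((cellEdges h).filter (fun e => e ∈ M)).filter
          (fun e => v ∈ e)).card
      = ∑ e ∈ (cellEdges h).filter (fun e => e ∈ M),
          ((corners h).filter (fun v => v ∈ e)).card := by
    simp_rw [Finset.card_filter]
    exact Finset.sum_comm
  have h4 : ∑ e ∈ (cellEdges h).filter (fun e => e ∈ M),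
          ((corners h).filter (fun v => v ∈ e)).card
      = ((cellEdges h).filter (fun e => e ∈ M)).card * 2 := by
    rw [Finset.sum_congr rfl (fun e he => two_ends h (Finset.mem_filter.1 he).1)]
    simp
  omega

theorem rbo_eq_three (B : Benzenoid) (h : Cell) (hh : h ∈ B.cells) (p : Vtx → ℤ)
    (hK : 1 ≤ B.K) (hsum : ∑ v ∈ B.verts, p v = 0) (hnn : ∀ e ∈ B.edges, 0 ≤ esum p e)
    (hpos : ∀ e ∈ B.edges, e ∉ cellEdges h → (∃ v ∈ corners h, v ∈ e) → 0 < esum p e) :
    B.RBO h = 3 := by
  have hK' : (B.K : ℚ) ≠ 0 := by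
    have : 0 < B.K := hK
    exact_mod_cast this.ne'
  unfold Benzenoid.RBO Benzenoid.pauling
  rw [← Finset.sum_div, div_eq_iff hK']
  have h5 : ∑ e ∈ cellEdges h, (B.kekule.filter (fun M => e ∈ M)).card = 3 * B.K := by
    simp_rw [Finset.card_filter]
    rw [Finset.sum_comm]
    simp_rw [← Finset.card_filter]
    rw [Finset.sum_congr rfl (fun M hM => three_edges B h hh p hsum hnn hpos hM)]
    simp [Benzenoid.K, mul_comm]
  exact_mod_cast h5

/-! ### Checking the example -/

theorem M₀_sub : ∀ e ∈ matchList, e ∈ exCells.biUnion cellEdges := by decide +kernel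

theorem M₀_one : ∀ c ∈ cellList, ∀ v ∈ corners c,
    (M₀.filter (fun e => v ∈ e)).card = 1 := by decide +kernel

theorem ex_verts : ex.verts = exCells.biUnion corners := rfl

theorem ex_edges : ex.edges = exCells.biUnion cellEdges := rfl

theorem M₀_mem : M₀ ∈ ex.kekule := by
  unfold Benzenoid.kekule
  rw [Finset.mem_filter, Finset.mem_powerset, ex_verts, ex_edges]
  constructor
  · intro e he
    exact M₀_sub e (List.mem_toFinset.1 he)
  · intro v hv
    rw [Finset.mem_biUnion] at hv
    obtain ⟨c, hc, hv⟩ := hv
    exact M₀_one c (List.mem_toFinset.1 hc) v hv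

theorem pot_sum : ∑ v ∈ exCells.biUnion corners, pot v = 0 := by decide +kernel

theorem esum_nonneg : ∀ c ∈ cellList, ∀ e ∈ cellEdges c, 0 ≤ esum pot e := by decide +kernel

theorem esum_pos : ∀ c ∈ cellList, ∀ e ∈ cellEdges c, e ∉ cellEdges (0, 0) →
    (∃ v ∈ corners (0, 0), v ∈ e) → 0 < esum pot e := by decide +kernel

theorem two_le : 2 ≤ exCells.card := by decide +kernel

theorem zero_mem : ((0, 0) : Cell) ∈ exCells := by decide +kernel

/-- **There is a benzenoid system, with at least two hexagons and at least one Kekulé structure,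
that has a hexagon of ring bond order exactly `3`.** -/
theorem result : ∃ (B : Benzenoid) (h : Cell),
    2 ≤ B.cells.card ∧ 1 ≤ B.K ∧ h ∈ B.cells ∧ B.RBO h = 3 := by
  have hK : 1 ≤ ex.K := Finset.card_pos.2 ⟨M₀, M₀_mem⟩
  refine ⟨ex, (0, 0), two_le, hK, zero_mem, ?_⟩
  apply rbo_eq_three ex (0, 0) zero_mem pot hK
  · rw [ex_verts]; exact pot_sum
  · intro e he
    rw [ex_edges, Finset.mem_biUnion] at he
    obtain ⟨c, hc, he⟩ := he
    exact esum_nonneg c (List.mem_toFinset.1 hc) e he
  · intro e he h1 h2
    rw [ex_edges, Finset.mem_biUnion] at he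
    obtain ⟨c, hc, he⟩ := he
    exact esum_pos c (List.mem_toFinset.1 hc) e he h1 h2

end Pool.Agent.Results.MP_64a46a_co.IsolatedHexagon
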